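import Pool.Agent.S00046

set_option autoImplicit false

namespace Pool.Agent.Results.MP_4cba3d_ag.Eight
open MvPolynomial Pool.Agent.S00046

noncomputable def ex (i j : ℕ) : Fin 2 →₀ ℕ := Finsupp.single 0 i + Finsupp.single 1 j

lemma ex_ne {i j k l : ℕ} (h : i ≠ k ∨ j ≠ l) : ex i j ≠ ex k l := by
  intro e
  have h0 := DFunLike.congr_fun e 0
  have h1 := DFunLike.congr_fun e 1
  simp [ex] at h0 h1
  omega

lemma mono (a : ℝ) (i j : ℕ) :
    (monomial (ex i j) a : MvPolynomial (Fin 2) ℝ) = C a * X 0 ^ i * X 1 ^ j := by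
  rw [X_pow_eq_monomial, X_pow_eq_monomial, C_mul_monomial, monomial_mul]; simp [ex]

lemma supp_sum (s : Finset (ℕ × ℕ)) (a : ℕ × ℕ → ℝ) (ha : ∀ q ∈ s, a q ≠ 0) :
    (∑ q ∈ s, monomial (ex q.1 q.2) (a q) : MvPolynomial (Fin 2) ℝ).support.card = s.card := by
  classical
  have inj : Function.Injective fun q : ℕ × ℕ => ex q.1 q.2 := by
    intro p q h
    by_contra hne
    refine ex_ne ?_ h
    by_contra hc
    push Not at hc
    exact hne (Prod.ext hc.1 hc.2)
  rw [← Finset.card_image_of_injective s inj]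
  congr 1
  ext m
  simp only [mem_support_iff, coeff_sum, coeff_monomial, Finset.mem_image]
  constructor
  · intro h
    obtain ⟨q, hq, h2⟩ := Finset.exists_ne_zero_of_sum_ne_zero h
    exact ⟨q, hq, by by_contra hc; simp [hc] at h2⟩
  · rintro ⟨q, hq, rfl⟩
    rw [Finset.sum_eq_single q (fun b _ hb => if_neg fun h => hb (inj h)) (fun h => absurd hq h)]
    simpa using ha q hq

theorem result : ∃ f g : MvPolynomial (Fin 2) ℝ, f.support.card = 3 ∧ g.support.card = 4 ∧
    ∃ S : Finset (Fin 2 → ℝ), S.card = 8 ∧ ∀ p ∈ S, 0 < p 0 ∧ 0 < p 1 ∧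
      eval p f = 0 ∧ eval p g = 0 ∧
      eval p (pderiv 0 f) * eval p (pderiv 1 g) - eval p (pderiv 1 f) * eval p (pderiv 0 g) ≠ 0 := by
  classical
  obtain ⟨c, hc, P, hP, hP'⟩ := pos8
  refine ⟨∑ q ∈ ({(0, 0), (1, 0), (16, 56)} : Finset (ℕ × ℕ)),
      monomial (ex q.1 q.2) (if q.1 = 1 then -c else 1),
    ∑ q ∈ ({(0, 0), (0, 1), (3, 12), (4, 15)} : Finset (ℕ × ℕ)),
      monomial (ex q.1 q.2) (if q.2 = 0 then -(79 / 75) else if q.1 = 3 then -1 else 1), ?_, ?_,
    P.image fun p => ![p.1, p.2], ?_, ?_⟩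
  · rw [supp_sum _ _ (fun q _ => by split_ifs <;> simp [hc.ne'])]; rfl
  · rw [supp_sum _ _ (fun q _ => by split_ifs <;> norm_num)]; rfl
  · rw [Finset.card_image_of_injective _ (fun p q h => Prod.ext (congrFun h 0) (congrFun h 1)), hP]
  · intro q hq
    obtain ⟨⟨s, t⟩, hp, rfl⟩ := Finset.mem_image.1 hq
    obtain ⟨h0, h1, h2, h3, h4⟩ := hP' _ hp
    simp only at h0 h1 h2 h3 h4
    rw [Finset.sum_insert (by decide), Finset.sum_insert (by decide), Finset.sum_singleton,
      Finset.sum_insert (by decide), Finset.sum_insert (by decide), Finset.sum_insert (by decide),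
      Finset.sum_singleton]
    simp only [mono]
    refine ⟨h0, h1, ?_, ?_, fun h => h4 ?_⟩
    · simp; linear_combination h2
    · simp; linear_combination h3
    · simp [pderiv_X] at h
      linear_combination s * t * h

end Pool.Agent.Results.MP_4cba3d_ag.Eight
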